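import Pool.Agent.Q81.CC.Ker

/-!
Job CC-NEAR of project CC, part 2: estimates of the truncated potential in `ℝ≥0∞`.
-/

set_option autoImplicit false

open MeasureTheory Set Metric
open scoped ENNReal

namespace Pool.Agent.Q81.CC

/-- the kernel of the truncated potential -/
noncomputable def k2 : W → ℝ≥0∞ := (closedBall (0 : W) 1).indicator (kk 2)

theorem k2_meas : Measurable k2 := (kk_meas 2).indicator measurableSet_closedBall

theorem k2_neg (z : W) : k2 (-z) = k2 z := by
  unfold k2
  by_cases h : z ∈ closedBall (0 : W) 1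
  · have h' : -z ∈ closedBall (0 : W) 1 := by simpa using h
    rw [indicator_of_mem h, indicator_of_mem h', kk_neg]
  · have h' : -z ∉ closedBall (0 : W) 1 := by simpa using h
    rw [indicator_of_notMem h, indicator_of_notMem h']

/-- the truncated potential -/
noncomputable def cv (g : W → ℝ≥0∞) (y : W) : ℝ≥0∞ := ∫⁻ z, k2 z * g (y + z)

theorem cv_meas {g : W → ℝ≥0∞} (hg : Measurable g) : Measurable (cv g) := by
  unfold cv
  apply Measurable.lintegral_prod_right'
    (f := fun p : W × W => k2 p.2 * g (p.1 + p.2))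
  exact (k2_meas.comp measurable_snd).mul (hg.comp (measurable_fst.add measurable_snd))

theorem cv_mono {g h : W → ℝ≥0∞} {y : W} (hgh : ∀ z, ‖z‖ ≤ 1 → g (y + z) ≤ h (y + z)) :
    cv g y ≤ cv h y := by
  unfold cv
  refine lintegral_mono fun z => ?_
  unfold k2
  by_cases hz : z ∈ closedBall (0 : W) 1
  · exact mul_le_mul_right (hgh z (by simpa using hz)) _
  · show (closedBall (0 : W) 1).indicator (kk 2) z * g (y + z) ≤
      (closedBall (0 : W) 1).indicator (kk 2) z * h (y + z)
    rw [indicator_of_notMem hz, zero_mul, zero_mul]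

theorem cv_symm {g h : W → ℝ≥0∞} (hg : Measurable g) (hh : Measurable h) :
    ∫⁻ y, g y * cv h y = ∫⁻ y, cv g y * h y := by
  have h1 : ∫⁻ y, g y * cv h y = ∫⁻ y, ∫⁻ z, g y * (k2 z * h (y + z)) := by
    refine lintegral_congr fun y => ?_
    have m : Measurable (fun z => k2 z * h (y + z)) :=
      k2_meas.mul (hh.comp (measurable_const.add measurable_id))
    unfold cv
    exact (lintegral_const_mul (g y) m).symm
  have m1 : Measurable (fun p : W × W => g p.1 * (k2 p.2 * h (p.1 + p.2))) :=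
    (hg.comp measurable_fst).mul ((k2_meas.comp measurable_snd).mul
      (hh.comp (measurable_fst.add measurable_snd)))
  have m2 : Measurable (fun p : W × W => k2 p.2 * (g (p.1 + p.2) * h p.1)) :=
    (k2_meas.comp measurable_snd).mul ((hg.comp (measurable_fst.add measurable_snd)).mul
      (hh.comp measurable_fst))
  rw [h1, lintegral_lintegral_swap m1.aemeasurable]
  have h2 : ∀ z : W, ∫⁻ y, g y * (k2 z * h (y + z)) = ∫⁻ y, k2 z * (g (y - z) * h y) := by
    intro z
    rw [← lintegral_sub_right_eq_self (fun y => g y * (k2 z * h (y + z))) z]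
    refine lintegral_congr fun y => ?_
    rw [sub_add_cancel]
    ring
  simp only [h2]
  rw [← lintegral_neg_eq_self (μ := (volume : Measure W))
    (fun z : W => ∫⁻ y, k2 z * (g (y - z) * h y))]
  have h3 : ∀ z : W, ∫⁻ y, k2 (-z) * (g (y - -z) * h y) = ∫⁻ y, k2 z * (g (y + z) * h y) := by
    intro z
    rw [k2_neg]
    simp only [sub_neg_eq_add]
  simp only [h3]
  have m3 : AEMeasurable (Function.uncurry (fun (z y : W) => k2 z * (g (y + z) * h y)))
      ((volume : Measure W).prod volume) := (m2.comp measurable_swap).aemeasurable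
  rw [lintegral_lintegral_swap m3]
  refine lintegral_congr fun y => ?_
  have m : Measurable (fun z => k2 z * g (y + z)) :=
    k2_meas.mul (hg.comp (measurable_const.add measurable_id))
  unfold cv
  refine Eq.trans ?_ (lintegral_mul_const (h y) m)
  refine lintegral_congr fun z => ?_
  ring

/-- the integral of the kernel -/
noncomputable def k1 : ℝ≥0∞ := ∫⁻ z, k2 z

theorem int_ind_le {α : ℝ} (ha : 0 ≤ α) :
    ∫⁻ z, (closedBall (0 : W) 1).indicator (kk α) z ≤ 64 * CC (3 - α) := by
  rw [lintegral_indicator measurableSet_closedBall]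
  refine le_trans (lintegral_mono_set ?_) (kk_int ha)
  exact closedBall_subset_closedBall (by norm_num)

theorem k1_top : k1 ≠ ∞ := by
  have h : k1 ≤ 64 * CC (3 - 2) := int_ind_le (by norm_num)
  exact ne_top_of_le_ne_top (ENNReal.mul_ne_top (by norm_num) (CC_top (by norm_num))) h

theorem cv_add_const {g : W → ℝ≥0∞} (hg : Measurable g) (A : ℝ≥0∞) (y : W) :
    cv (fun z => g z + A) y = cv g y + A * k1 := by
  unfold cv k1
  simp only [mul_add]
  have m : Measurable (fun z => k2 z * g (y + z)) :=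
    k2_meas.mul (hg.comp (measurable_const.add measurable_id))
  rw [lintegral_add_left m]
  congr 1
  rw [← lintegral_const_mul _ k2_meas]
  simp only [mul_comm]

/-- the composition of the kernels -/
theorem kk_comp (u : W) : ∫⁻ z, k2 z * k2 (u - z) ≤
    (closedBall (0 : W) 2).indicator (fun u => (2 ^ (9 / 8 : ℝ) * (2 * (64 * CC (1 / 8)))) * kk (9 / 8) u)
      u := by
  by_cases hu : u ∈ closedBall (0 : W) 2
  · rw [indicator_of_mem hu]
    set k' : W → ℝ≥0∞ := (closedBall (0 : W) 1).indicator (kk (23 / 8)) with hk'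
    have k'm : Measurable k' := (kk_meas _).indicator measurableSet_closedBall
    have key : ∀ z w : W, ‖z‖ ≤ 1 → ‖w‖ ≤ 1 → ‖z‖ ≤ ‖w‖ → z + w = u →
        kk 2 z * kk 2 w ≤ (2 ^ (9 / 8 : ℝ) * kk (9 / 8) u) * kk (23 / 8) z := by
      intro z w _ _ hzw hu'
      have h1 : ‖u‖ ≤ 2 * ‖w‖ := by
        rw [← hu']
        have := norm_add_le z w
        linarith
      have e1 : kk 2 w = kk (7 / 8) w * kk (9 / 8) w := by
        rw [← kk_add (by norm_num) (by norm_num)]
        norm_num
      have e2 : kk (23 / 8) z = kk 2 z * kk (7 / 8) z := by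
        rw [← kk_add (by norm_num) (by norm_num)]
        norm_num
      rw [e1, e2]
      calc kk 2 z * (kk (7 / 8) w * kk (9 / 8) w)
          ≤ kk 2 z * (kk (7 / 8) z * (2 ^ (9 / 8 : ℝ) * kk (9 / 8) u)) := by
            gcongr
            · exact kk_anti (by norm_num) hzw
            · exact kk_anti2 (by norm_num) h1
        _ = _ := by ring
    have h1 : ∀ z : W, k2 z * k2 (u - z) ≤ (2 ^ (9 / 8 : ℝ) * kk (9 / 8) u) * (k' z + k' (u - z)) := by
      intro z
      by_cases hz : z ∈ closedBall (0 : W) 1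
      · by_cases hw : u - z ∈ closedBall (0 : W) 1
        · rw [hk']
          unfold k2
          rw [indicator_of_mem hz, indicator_of_mem hw, indicator_of_mem hz, indicator_of_mem hw]
          have hz' : ‖z‖ ≤ 1 := by simpa using hz
          have hw' : ‖u - z‖ ≤ 1 := by simpa using hw
          rcases le_total ‖z‖ ‖u - z‖ with h | h
          · refine (key z (u - z) hz' hw' h (by abel)).trans ?_
            exact mul_le_mul_right le_self_add _
          · rw [mul_comm (kk 2 z)]
            refine (key (u - z) z hw' hz' h (by abel)).trans ?_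
            exact mul_le_mul_right le_add_self _
        · have : k2 (u - z) = 0 := indicator_of_notMem hw _
          rw [this, mul_zero]
          exact zero_le
      · have : k2 z = 0 := indicator_of_notMem hz _
        rw [this, zero_mul]
        exact zero_le
    refine (lintegral_mono h1).trans ?_
    have m : Measurable (fun z => k' z + k' (u - z)) :=
      k'm.add (k'm.comp (measurable_const.sub measurable_id))
    rw [lintegral_const_mul _ m, lintegral_add_left k'm]
    have h2 : ∫⁻ z, k' (u - z) = ∫⁻ z, k' z := lintegral_sub_left_eq_self k' u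
    rw [h2, ← two_mul]
    have h3 : ∫⁻ z, k' z ≤ 64 * CC (1 / 8) := by
      have := int_ind_le (α := 23 / 8) (by norm_num)
      norm_num at this
      norm_num
      exact this
    calc (2 ^ (9 / 8 : ℝ) * kk (9 / 8) u) * (2 * ∫⁻ z, k' z)
        ≤ (2 ^ (9 / 8 : ℝ) * kk (9 / 8) u) * (2 * (64 * CC (1 / 8))) := by gcongr
      _ = _ := by ring
  · rw [indicator_of_notMem hu]
    have h1 : ∀ z : W, k2 z * k2 (u - z) = 0 := by
      intro z
      by_cases hz : z ∈ closedBall (0 : W) 1
      · by_cases hw : u - z ∈ closedBall (0 : W) 1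
        · exfalso
          apply hu
          have hz' : ‖z‖ ≤ 1 := by simpa using hz
          have hw' : ‖u - z‖ ≤ 1 := by simpa using hw
          have : ‖u‖ ≤ ‖z‖ + ‖u - z‖ := by
            have := norm_add_le z (u - z)
            rwa [add_sub_cancel] at this
          rw [mem_closedBall_zero_iff]
          linarith
        · have : k2 (u - z) = 0 := indicator_of_notMem hw _
          rw [this, mul_zero]
      · have : k2 z = 0 := indicator_of_notMem hz _
        rw [this, zero_mul]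
    simp only [h1, lintegral_zero, le_refl]

/-- the double potential -/
theorem cv_cv_le {g : W → ℝ≥0∞} (hg : Measurable g) (y : W) :
    cv (cv g) y ≤ (2 ^ (9 / 8 : ℝ) * (2 * (64 * CC (1 / 8)))) *
      ∫⁻ u in closedBall (0 : W) 2, g (y + u) * kk (9 / 8) u := by
  have hgy : Measurable (fun u => g (y + u)) := hg.comp (measurable_const.add measurable_id)
  have h1 : cv (cv g) y = ∫⁻ z, ∫⁻ u, k2 z * (k2 (u - z) * g (y + u)) := by
    show ∫⁻ z, k2 z * cv g (y + z) = _
    refine lintegral_congr fun z => ?_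
    unfold cv
    rw [← lintegral_sub_right_eq_self (fun z' => k2 z' * g (y + z + z')) z]
    rw [← lintegral_const_mul]
    · refine lintegral_congr fun u => ?_
      have e : y + z + (u - z) = y + u := by abel
      rw [e]
    · have e : ∀ u, y + z + (u - z) = y + u := fun u => by abel
      simp only [e]
      exact (k2_meas.comp (measurable_id.sub measurable_const)).mul hgy
  have m1 : Measurable (fun p : W × W => k2 p.1 * (k2 (p.2 - p.1) * g (y + p.2))) :=
    (k2_meas.comp measurable_fst).mul ((k2_meas.comp (measurable_snd.sub measurable_fst)).mul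
      (hgy.comp measurable_snd))
  rw [h1, lintegral_lintegral_swap m1.aemeasurable]
  have h2 : ∀ u : W, ∫⁻ z, k2 z * (k2 (u - z) * g (y + u)) ≤
      (closedBall (0 : W) 2).indicator (fun u => (2 ^ (9 / 8 : ℝ) * (2 * (64 * CC (1 / 8)))) *
        (g (y + u) * kk (9 / 8) u)) u := by
    intro u
    have e : ∀ z : W, k2 z * (k2 (u - z) * g (y + u)) = (k2 z * k2 (u - z)) * g (y + u) :=
      fun z => by ring
    simp only [e]
    have m : Measurable (fun z => k2 z * k2 (u - z)) :=
      k2_meas.mul (k2_meas.comp (measurable_const.sub measurable_id))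
    rw [lintegral_mul_const _ m]
    refine (mul_le_mul_left (kk_comp u) _).trans (le_of_eq ?_)
    by_cases hu : u ∈ closedBall (0 : W) 2
    · rw [indicator_of_mem hu, indicator_of_mem hu]
      ring
    · rw [indicator_of_notMem hu, indicator_of_notMem hu, zero_mul]
  refine (lintegral_mono h2).trans (le_of_eq ?_)
  rw [lintegral_indicator measurableSet_closedBall]
  have m : Measurable (fun u => g (y + u) * kk (9 / 8) u) := hgy.mul (kk_meas _)
  rw [lintegral_const_mul _ m]

theorem cs2 {f g : W → ℝ≥0∞} (μ : Measure W) (hf : Measurable f) (hg : Measurable g) :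
    (∫⁻ z, f z * g z ∂μ) ^ 2 ≤ (∫⁻ z, f z ^ 2 ∂μ) * ∫⁻ z, g z ^ 2 ∂μ := by
  have h := ENNReal.lintegral_mul_le_Lp_mul_Lq μ (Real.HolderConjugate.two_two)
    hf.aemeasurable hg.aemeasurable
  have h2 := pow_le_pow_left' h 2
  refine h2.trans (le_of_eq ?_)
  rw [mul_pow]
  have e : ∀ x : ℝ≥0∞, (x ^ (1 / 2 : ℝ)) ^ 2 = x := by
    intro x
    rw [← ENNReal.rpow_natCast, ← ENNReal.rpow_mul]
    norm_num
  rw [e, e]
  congr 1 <;>
  · refine lintegral_congr fun z => ?_
    rw [← ENNReal.rpow_natCast]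
    norm_num

theorem R_bd {K t : ℝ} (g : W → ℝ≥0∞) (hg : Measurable g)
    (hM : ∀ (y : W) (s : ℝ), 0 < s → s ≤ 2 → ∫⁻ z in closedBall y s, g z ≤ ENNReal.ofReal (K * s))
    (hK : 0 ≤ K) (hD : ∫⁻ z, g z ^ 2 ≤ ENNReal.ofReal (t ^ 8)) (y : W) :
    (∫⁻ u in closedBall (0 : W) 2, g (y + u) * kk (9 / 8) u) ^ 4 ≤
      (ENNReal.ofReal (2 * K) * CC (1 / 8)) ^ 2 * (ENNReal.ofReal (t ^ 8) * (64 * CC (1 / 4))) := by
  have hgy : Measurable (fun u => g (y + u)) := hg.comp (measurable_const.add measurable_id)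
  have hsq : Measurable (fun u => g (y + u) ^ (1 / 2 : ℝ)) := hgy.pow_const _
  have hs : ∀ u, g (y + u) ^ (1 / 2 : ℝ) * g (y + u) ^ (1 / 2 : ℝ) = g (y + u) := by
    intro u
    rw [← ENNReal.rpow_add_of_nonneg _ _ (by norm_num) (by norm_num)]
    norm_num
  -- the first Cauchy-Schwarz inequality
  have h1 := cs2 (volume.restrict (closedBall (0 : W) 2)) (hsq.mul (kk_meas (7 / 16)))
    (hsq.mul (kk_meas (11 / 16)))
  have e1 : ∀ u, (g (y + u) ^ (1 / 2 : ℝ) * kk (7 / 16) u) * (g (y + u) ^ (1 / 2 : ℝ) * kk (11 / 16) u) =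
      g (y + u) * kk (9 / 8) u := by
    intro u
    have a : kk (9 / 8) u = kk (7 / 16) u * kk (11 / 16) u := by
      rw [← kk_add (by norm_num) (by norm_num)]
      norm_num
    rw [a]
    nth_rw 3 [← hs u]
    ring
  have e2 : ∀ u, (g (y + u) ^ (1 / 2 : ℝ) * kk (7 / 16) u) ^ 2 = g (y + u) * kk (7 / 8) u := by
    intro u
    have a : kk (7 / 8) u = kk (7 / 16) u * kk (7 / 16) u := by
      rw [← kk_add (by norm_num) (by norm_num)]
      norm_num
    rw [a]
    nth_rw 2 [← hs u]
    ring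
  have e3 : ∀ u, (g (y + u) ^ (1 / 2 : ℝ) * kk (11 / 16) u) ^ 2 = g (y + u) * kk (11 / 8) u := by
    intro u
    have a : kk (11 / 8) u = kk (11 / 16) u * kk (11 / 16) u := by
      rw [← kk_add (by norm_num) (by norm_num)]
      norm_num
    rw [a]
    nth_rw 2 [← hs u]
    ring
  simp only [Pi.mul_apply] at h1
  simp only [e1, e2, e3] at h1
  -- the Morrey bound
  have h2 : ∫⁻ u in closedBall (0 : W) 2, g (y + u) * kk (7 / 8) u ≤
      ENNReal.ofReal (2 * K) * CC (1 / 8) := by
    have := wt_int (fun u => g (y + u)) (ENNReal.ofReal (2 * K)) (d := 1) (α := 7 / 8) (by norm_num)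
      (by
        intro j
        have a1 : ∫⁻ z in Bd j, g (y + z) = ∫⁻ z in closedBall y (2 * (1 / 2) ^ j), g z := by
          have hp : MeasurePreserving (fun z : W => y + z) volume volume :=
            measurePreserving_add_left volume y
          have he : MeasurableEmbedding (fun z : W => y + z) := measurableEmbedding_addLeft y
          have hs := hp.setLIntegral_comp_preimage_emb he g (closedBall y (2 * (1 / 2) ^ j))
          rw [← hs]
          congr 2
          ext z
          simp [Bd, dist_eq_norm]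
        rw [a1]
        have a2 : (2 * (1 / 2 : ℝ) ^ j) ≤ 2 := by
          have : (1 / 2 : ℝ) ^ j ≤ 1 := pow_le_one₀ (by norm_num) (by norm_num)
          linarith
        refine (hM y _ (by positivity) a2).trans (le_of_eq ?_)
        have a3 : K * (2 * (1 / 2 : ℝ) ^ j) = (2 * K) * ((2 : ℝ) ^ j)⁻¹ := by
          rw [one_div, inv_pow]
          ring
        rw [a3, ENNReal.ofReal_mul (by positivity), ENNReal.ofReal_inv_of_pos (by positivity),
          ENNReal.ofReal_pow (by norm_num), mul_one, ENNReal.rpow_neg, ENNReal.rpow_natCast]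
        norm_num) hgy
    norm_num at this
    norm_num
    exact this
  -- the second Cauchy-Schwarz inequality
  have h3 : (∫⁻ u in closedBall (0 : W) 2, g (y + u) * kk (11 / 8) u) ^ 2 ≤
      ENNReal.ofReal (t ^ 8) * (64 * CC (1 / 4)) := by
    refine (cs2 _ hgy (kk_meas _)).trans ?_
    apply mul_le_mul'
    · refine (setLIntegral_le_lintegral _ _).trans ?_
      rw [lintegral_add_left_eq_self (fun z => g z ^ 2) y]
      exact hD
    · have e4 : ∀ u : W, kk (11 / 8) u ^ 2 = kk (11 / 4) u := by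
        intro u
        rw [sq, ← kk_add (by norm_num) (by norm_num)]
        norm_num
      simp only [e4]
      have := kk_int (α := 11 / 4) (by norm_num)
      norm_num at this
      norm_num
      exact this
  calc (∫⁻ u in closedBall (0 : W) 2, g (y + u) * kk (9 / 8) u) ^ 4
      = ((∫⁻ u in closedBall (0 : W) 2, g (y + u) * kk (9 / 8) u) ^ 2) ^ 2 := by ring
    _ ≤ ((∫⁻ u in closedBall (0 : W) 2, g (y + u) * kk (7 / 8) u) *
          ∫⁻ u in closedBall (0 : W) 2, g (y + u) * kk (11 / 8) u) ^ 2 := pow_le_pow_left' h1 2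
    _ = (∫⁻ u in closedBall (0 : W) 2, g (y + u) * kk (7 / 8) u) ^ 2 *
          (∫⁻ u in closedBall (0 : W) 2, g (y + u) * kk (11 / 8) u) ^ 2 := by ring
    _ ≤ _ := mul_le_mul' (pow_le_pow_left' h2 2) h3

/-- the pointwise bound of the double potential -/
theorem q_bd (K : ℝ) (hK : 0 ≤ K) : ∃ c : ℝ, 0 ≤ c ∧ ∀ (t : ℝ) (g : W → ℝ≥0∞), 0 ≤ t →
    Measurable g →
    (∀ (y : W) (s : ℝ), 0 < s → s ≤ 2 → ∫⁻ z in closedBall y s, g z ≤ ENNReal.ofReal (K * s)) →
    ∫⁻ z, g z ^ 2 ≤ ENNReal.ofReal (t ^ 8) → ∀ y, cv (cv g) y ≤ ENNReal.ofReal (c * t ^ 2) := by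
  set N : ℝ≥0∞ := (2 ^ (9 / 8 : ℝ) * (2 * (64 * CC (1 / 8)))) ^ 4 *
    ((ENNReal.ofReal (2 * K) * CC (1 / 8)) ^ 2 * (64 * CC (1 / 4))) with hN
  have c1 : CC (1 / 8) ≠ ∞ := CC_top (by norm_num)
  have c2 : CC (1 / 4) ≠ ∞ := CC_top (by norm_num)
  have hNt : N ≠ ∞ := by
    have h2 : (2 : ℝ≥0∞) ^ (9 / 8 : ℝ) ≠ ∞ := ENNReal.rpow_ne_top_of_nonneg (by norm_num) (by norm_num)
    rw [hN]
    refine ENNReal.mul_ne_top (ENNReal.pow_ne_top (ENNReal.mul_ne_top h2
      (ENNReal.mul_ne_top (by norm_num) (ENNReal.mul_ne_top (by norm_num) c1)))) ?_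
    exact ENNReal.mul_ne_top (ENNReal.pow_ne_top (ENNReal.mul_ne_top ENNReal.ofReal_ne_top c1))
      (ENNReal.mul_ne_top (by norm_num) c2)
  refine ⟨N.toReal ^ (1 / 4 : ℝ), by positivity, ?_⟩
  intro t g ht hg hM hD y
  have h1 : cv (cv g) y ^ 4 ≤ N * ENNReal.ofReal (t ^ 8) := by
    refine (pow_le_pow_left' (cv_cv_le hg y) 4).trans ?_
    rw [mul_pow]
    refine (mul_le_mul_right (R_bd g hg hM hK hD y) _).trans (le_of_eq ?_)
    rw [hN]
    ring
  have h2 : ENNReal.ofReal (N.toReal ^ (1 / 4 : ℝ) * t ^ 2) ^ 4 = N * ENNReal.ofReal (t ^ 8) := by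
    rw [← ENNReal.ofReal_pow (by positivity), mul_pow, ← pow_mul]
    have e : (N.toReal ^ (1 / 4 : ℝ)) ^ 4 = N.toReal := by
      rw [← Real.rpow_natCast, ← Real.rpow_mul ENNReal.toReal_nonneg]
      norm_num
    rw [e, ENNReal.ofReal_mul ENNReal.toReal_nonneg, ENNReal.ofReal_toReal hNt]
  rw [← h2] at h1
  exact (ENNReal.pow_le_pow_left_iff (by norm_num)).1 h1

/-- the three estimates -/
theorem glob (K : ℝ) (hK : 0 ≤ K) : ∃ c : ℝ, 0 ≤ c ∧ ∀ (t : ℝ) (g : W → ℝ≥0∞), 0 ≤ t →
    Measurable g →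
    (∀ (y : W) (s : ℝ), 0 < s → s ≤ 2 → ∫⁻ z in closedBall y s, g z ≤ ENNReal.ofReal (K * s)) →
    ∫⁻ z, g z ≤ ENNReal.ofReal (8 * K) →
    ∫⁻ z, g z ^ 2 ≤ ENNReal.ofReal (t ^ 8) →
    ∫⁻ y, cv g y ^ 2 ≤ ENNReal.ofReal (c * t ^ 2 * (8 * K)) ∧
    ∫⁻ y, g y * cv g y ≤ ENNReal.ofReal (√(c * (8 * K)) * t ^ 5) ∧
    ∀ A : ℝ≥0∞, ∫⁻ y, (cv g y + A) * cv (fun z => g z * (cv g z + A)) y ≤
      (ENNReal.ofReal (c * t ^ 2) + A * k1) *
        (ENNReal.ofReal (√(c * (8 * K)) * t ^ 5) + A * ENNReal.ofReal (8 * K)) := by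
  obtain ⟨c, hc, h⟩ := q_bd K hK
  refine ⟨c, hc, ?_⟩
  intro t g ht hg hM hI hD
  have hq := h t g ht hg hM hD
  have hp := cv_meas hg
  have h1 : ∫⁻ y, cv g y ^ 2 ≤ ENNReal.ofReal (c * t ^ 2 * (8 * K)) := by
    have e : ∫⁻ y, cv g y ^ 2 = ∫⁻ y, cv (cv g) y * g y := by
      rw [← cv_symm hp hg]
      refine lintegral_congr fun y => ?_
      rw [sq]
    rw [e]
    calc ∫⁻ y, cv (cv g) y * g y ≤ ∫⁻ y, ENNReal.ofReal (c * t ^ 2) * g y :=
          lintegral_mono fun y => mul_le_mul_left (hq y) _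
      _ = ENNReal.ofReal (c * t ^ 2) * ∫⁻ y, g y := lintegral_const_mul _ hg
      _ ≤ ENNReal.ofReal (c * t ^ 2) * ENNReal.ofReal (8 * K) := mul_le_mul_right hI _
      _ = _ := by rw [← ENNReal.ofReal_mul (by positivity)]
  have h2 : ∫⁻ y, g y * cv g y ≤ ENNReal.ofReal (√(c * (8 * K)) * t ^ 5) := by
    have a1 : (∫⁻ y, g y * cv g y) ^ 2 ≤ ENNReal.ofReal (√(c * (8 * K)) * t ^ 5) ^ 2 := by
      refine (cs2 volume hg hp).trans ?_
      refine (mul_le_mul' hD h1).trans (le_of_eq ?_)
      rw [← ENNReal.ofReal_mul (by positivity), ← ENNReal.ofReal_pow (by positivity), mul_pow,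
        Real.sq_sqrt (by positivity)]
      congr 1
      ring
    exact (ENNReal.pow_le_pow_left_iff (by norm_num)).1 a1
  refine ⟨h1, h2, fun A => ?_⟩
  have hH : Measurable (fun z => g z * (cv g z + A)) := hg.mul (hp.add_const A)
  rw [cv_symm (hp.add_const A) hH]
  calc ∫⁻ y, cv (fun z => cv g z + A) y * (g y * (cv g y + A))
      ≤ ∫⁻ y, (ENNReal.ofReal (c * t ^ 2) + A * k1) * (g y * (cv g y + A)) := by
        refine lintegral_mono fun y => mul_le_mul_left ?_ _
        rw [cv_add_const hp]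
        exact add_le_add (hq y) le_rfl
    _ = (ENNReal.ofReal (c * t ^ 2) + A * k1) * ∫⁻ y, g y * (cv g y + A) :=
        lintegral_const_mul _ hH
    _ ≤ _ := by
        apply mul_le_mul_right
        simp only [mul_add]
        have m : Measurable (fun y => g y * cv g y) := hg.mul hp
        rw [lintegral_add_left m]
        apply add_le_add h2
        rw [lintegral_mul_const _ hg, mul_comm]
        exact mul_le_mul_right hI _

end Pool.Agent.Q81.CC
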