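import Pool.Agent.Q85.CC.Defs
import Pool.Agent.Q81.CC.Glob

/-!
Job CC-NEAR of project CC: estimate of products of truncated potentials under a Morrey bound.
-/

set_option autoImplicit false

open MeasureTheory Set Metric
open scoped ENNReal
open H459R3.NS Pool.Agent.W268.NS Pool.Agent.Q67.VD Pool.Agent.Q85.CC

namespace Pool.Agent.Q81.CC

theorem ofReal_int_le {μ : Measure W} {g : W → ℝ} (hg : ∀ z, 0 ≤ g z) :
    ENNReal.ofReal (∫ z, g z ∂μ) ≤ ∫⁻ z, ENNReal.ofReal (g z) ∂μ := by
  have h := enorm_integral_le_lintegral_enorm (μ := μ) g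
  rw [Real.enorm_of_nonneg (integral_nonneg hg)] at h
  refine h.trans (le_of_eq ?_)
  refine lintegral_congr fun z => ?_
  rw [Real.enorm_of_nonneg (hg z)]

theorem pot_nn (ρ : ℝ) (g : W → ℝ) (y : W) : 0 ≤ pot ρ g y := by
  unfold pot
  exact integral_nonneg fun z => by positivity

theorem pot_le {g : W → ℝ} (hg : ∀ z, 0 ≤ g z) (y : W) :
    ENNReal.ofReal (pot 1 g y) ≤ cv (fun z => ENNReal.ofReal (g z)) y := by
  have h1 : ENNReal.ofReal (pot 1 g y) ≤
      ∫⁻ z in closedBall (0 : W) 1, ENNReal.ofReal (|g (y + z)| / ‖z‖ ^ 2) :=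
    ofReal_int_le fun z => by positivity
  refine h1.trans ?_
  have h2 : cv (fun z => ENNReal.ofReal (g z)) y =
      ∫⁻ z in closedBall (0 : W) 1, kk 2 z * ENNReal.ofReal (g (y + z)) := by
    rw [← lintegral_indicator measurableSet_closedBall]
    unfold cv k2
    refine lintegral_congr fun z => ?_
    by_cases hz : z ∈ closedBall (0 : W) 1
    · rw [indicator_of_mem hz, indicator_of_mem hz]
    · rw [indicator_of_notMem hz, indicator_of_notMem hz, zero_mul]
  rw [h2]
  refine lintegral_mono fun z => ?_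
  rw [abs_of_nonneg (hg _)]
  rcases eq_or_ne z 0 with rfl | hz
  · simp
  · have hz0 : 0 < ‖z‖ := norm_pos_iff.2 hz
    rw [div_eq_inv_mul, ENNReal.ofReal_mul (by positivity)]
    refine mul_le_mul_left (le_of_eq ?_) _
    unfold kk
    rw [ENNReal.ofReal_inv_of_pos (by positivity), ENNReal.ofReal_pow hz0.le, ofReal_norm]
    congr 1
    rw [← ENNReal.rpow_natCast]
    norm_num

theorem young (a δ : ℝ) (ha : 0 ≤ a) (hδ : 0 < δ) : ∃ C : ℝ, 0 ≤ C ∧ ∀ t : ℝ, 0 ≤ t →
    a * t ^ 7 ≤ δ * t ^ 8 + C := by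
  refine ⟨a * (a / δ) ^ 7, by positivity, fun t ht => ?_⟩
  rcases le_total t (a / δ) with h | h
  · have h1 : t ^ 7 ≤ (a / δ) ^ 7 := pow_le_pow_left₀ ht h 7
    have h2 : a * t ^ 7 ≤ a * (a / δ) ^ 7 := mul_le_mul_of_nonneg_left h1 ha
    have h3 : 0 ≤ δ * t ^ 8 := by positivity
    linarith
  · have h1 : a ≤ δ * t := by
      rw [div_le_iff₀ hδ] at h
      linarith
    have h2 : a * t ^ 7 ≤ (δ * t) * t ^ 7 := mul_le_mul_of_nonneg_right h1 (by positivity)
    have h3 : 0 ≤ a * (a / δ) ^ 7 := by positivity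
    nlinarith

theorem pow_le_one_add (t : ℝ) (ht : 0 ≤ t) (j : ℕ) (hj : j ≤ 7) : t ^ j ≤ 1 + t ^ 7 := by
  rcases le_total t 1 with h | h
  · have h1 : t ^ j ≤ 1 := pow_le_one₀ ht h
    have h2 : 0 ≤ t ^ 7 := by positivity
    linarith
  · have h1 : t ^ j ≤ t ^ 7 := pow_le_pow_right₀ h hj
    linarith

theorem vol_four (x : W) : volume (closedBall x 4) = 512 := by
  rw [Real.volume_pi_closedBall _ (by norm_num), Fintype.card_fin]
  norm_num

theorem near1 (K A δ : ℝ) (hK : 0 ≤ K) (hA : 0 ≤ A) (hδ : 0 < δ) : ∃ C : ℝ, 0 ≤ C ∧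
    ∀ f : W → ℝ, Continuous f → (∀ y, 0 ≤ f y) → Mor K 8 f → ∀ x : W,
      (∫ y in closedBall x 4, (pot 1 f y + A) ^ 2)
        + (∫ y in closedBall x 4, (pot 1 f y + A) * pot 1 (fun z => f z * (pot 1 f z + A)) y)
        + (∫ y in closedBall x 4, f y * (pot 1 f y + A))
      ≤ δ * (∫ y in closedBall x 8, f y ^ 2) + C := by
  obtain ⟨c, hc, hglob⟩ := glob K hK
  set c3 : ℝ := √(c * (8 * K)) with hc3
  have hc3n : 0 ≤ c3 := Real.sqrt_nonneg _
  set κ : ℝ := k1.toReal with hκ
  have hκn : 0 ≤ κ := ENNReal.toReal_nonneg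
  have hκe : k1 = ENNReal.ofReal κ := (ENNReal.ofReal_toReal k1_top).symm
  set a : ℝ := 2 * (c * (8 * K)) + c * c3 + c * (A * (8 * K)) + A * κ * c3 + c3 with ha
  have han : 0 ≤ a := by positivity
  obtain ⟨C0, hC0, hy⟩ := young a δ han hδ
  refine ⟨C0 + a + (1024 * A ^ 2 + A * κ * (A * (8 * K)) + A * (8 * K)), by positivity, ?_⟩
  intro f hf hf0 hM x
  set F : W → ℝ≥0∞ := fun z => ENNReal.ofReal (f z) with hF
  have hFm : Measurable F := hf.measurable.ennreal_ofReal
  set G : W → ℝ≥0∞ := (closedBall x 8).indicator F with hG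
  have hGm : Measurable G := hFm.indicator measurableSet_closedBall
  have hGF : ∀ z, G z ≤ F z := fun z => indicator_le_self _ _ z
  have hGe : ∀ z ∈ closedBall x 8, G z = F z := fun z hz => indicator_of_mem hz _
  have hint : ∀ (y : W) (s : ℝ), ∫⁻ z in closedBall y s, F z =
      ENNReal.ofReal (∫ z in closedBall y s, f z) := by
    intro y s
    rw [ofReal_integral_eq_lintegral_ofReal
      (hf.continuousOn.integrableOn_compact (isCompact_closedBall y s))
      (Filter.Eventually.of_forall hf0)]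
  have habs : ∀ (y : W) (s : ℝ), ∫ z in closedBall y s, |f z| = ∫ z in closedBall y s, f z := by
    intro y s
    refine integral_congr_ae (Filter.Eventually.of_forall fun z => ?_)
    exact abs_of_nonneg (hf0 z)
  set D : ℝ := ∫ y in closedBall x 8, f y ^ 2 with hD
  have hD0 : 0 ≤ D := integral_nonneg fun y => by positivity
  set t : ℝ := D ^ (1 / 8 : ℝ) with ht
  have ht0 : 0 ≤ t := by positivity
  have ht8 : t ^ 8 = D := by
    rw [ht, ← Real.rpow_natCast, ← Real.rpow_mul hD0]
    norm_num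
  have g1 : ∀ (y : W) (s : ℝ), 0 < s → s ≤ 2 →
      ∫⁻ z in closedBall y s, G z ≤ ENNReal.ofReal (K * s) := by
    intro y s hs hs2
    refine (lintegral_mono fun z => hGF z).trans ?_
    rw [hint]
    apply ENNReal.ofReal_le_ofReal
    rw [← habs]
    exact hM y s hs (by linarith)
  have g2 : ∫⁻ z, G z ≤ ENNReal.ofReal (8 * K) := by
    rw [hG, lintegral_indicator measurableSet_closedBall, hint]
    apply ENNReal.ofReal_le_ofReal
    rw [← habs, mul_comm 8 K]
    exact hM x 8 (by norm_num) le_rfl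
  have g3 : ∫⁻ z, G z ^ 2 ≤ ENNReal.ofReal (t ^ 8) := by
    have e : ∀ z, G z ^ 2 = (closedBall x 8).indicator (fun z => ENNReal.ofReal (f z ^ 2)) z := by
      intro z
      by_cases hz : z ∈ closedBall x 8
      · rw [hGe z hz, indicator_of_mem hz, hF, ENNReal.ofReal_pow (hf0 z)]
      · rw [hG, indicator_of_notMem hz, indicator_of_notMem hz]
        norm_num
    simp only [e]
    have hi : Integrable (fun z => f z ^ 2) (volume.restrict (closedBall x 8)) :=
      (hf.pow 2).continuousOn.integrableOn_compact (isCompact_closedBall x 8)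
    rw [lintegral_indicator measurableSet_closedBall, ht8, hD,
      ofReal_integral_eq_lintegral_ofReal hi (Filter.Eventually.of_forall fun z => sq_nonneg _)]
  obtain ⟨b1, b3, b2⟩ := hglob t G ht0 hGm g1 g2 g3
  -- the potential is at most `cv G` on the cube of radius 7
  have hP : ∀ y ∈ closedBall x 7, ENNReal.ofReal (pot 1 f y) ≤ cv G y := by
    intro y hy
    refine (pot_le hf0 y).trans (cv_mono fun z hz => ?_)
    rw [hGe]
    rw [mem_closedBall] at hy ⊢
    calc dist (y + z) x ≤ dist (y + z) y + dist y x := dist_triangle _ _ _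
      _ ≤ 1 + 7 := by
          apply add_le_add _ hy
          rw [dist_eq_norm, add_sub_cancel_left]
          exact hz
      _ = 8 := by norm_num
  have hsub : ∀ y ∈ closedBall x 4, y ∈ closedBall x 7 := fun y hy =>
    closedBall_subset_closedBall (by norm_num) hy
  have hPA : ∀ y ∈ closedBall x 7, ENNReal.ofReal (pot 1 f y + A) ≤ cv G y + ENNReal.ofReal A := by
    intro y hy
    rw [ENNReal.ofReal_add (pot_nn 1 f y) hA]
    exact add_le_add (hP y hy) le_rfl
  have hPAn : ∀ y, 0 ≤ pot 1 f y + A := fun y => add_nonneg (pot_nn 1 f y) hA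
  -- the first integral
  have T1 : ENNReal.ofReal (∫ y in closedBall x 4, (pot 1 f y + A) ^ 2) ≤
      ENNReal.ofReal (2 * (c * t ^ 2 * (8 * K)) + 1024 * A ^ 2) := by
    refine (ofReal_int_le fun y => by positivity).trans ?_
    have h1 : ∀ y ∈ closedBall x 4, ENNReal.ofReal ((pot 1 f y + A) ^ 2) ≤
        2 * cv G y ^ 2 + ENNReal.ofReal (2 * A ^ 2) := by
      intro y hy
      have h2 : (pot 1 f y + A) ^ 2 ≤ 2 * pot 1 f y ^ 2 + 2 * A ^ 2 := by
        nlinarith [sq_nonneg (pot 1 f y - A)]
      refine (ENNReal.ofReal_le_ofReal h2).trans ?_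
      rw [ENNReal.ofReal_add (by positivity) (by positivity)]
      refine add_le_add ?_ le_rfl
      rw [ENNReal.ofReal_mul (by norm_num), ENNReal.ofReal_pow (pot_nn 1 f y)]
      rw [ENNReal.ofReal_ofNat]
      exact mul_le_mul_right (pow_le_pow_left' (hP y (hsub y hy)) 2) _
    refine (setLIntegral_mono' measurableSet_closedBall h1).trans ?_
    have m : Measurable (fun y => 2 * cv G y ^ 2) := ((cv_meas hGm).pow_const 2).const_mul 2
    rw [lintegral_add_left m, lintegral_const, Measure.restrict_apply_univ, vol_four,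
      lintegral_const_mul _ ((cv_meas hGm).pow_const 2)]
    have e0 : ENNReal.ofReal (2 * (c * t ^ 2 * (8 * K)) + 1024 * A ^ 2) =
        2 * ENNReal.ofReal (c * t ^ 2 * (8 * K)) + ENNReal.ofReal (2 * A ^ 2) * 512 := by
      rw [ENNReal.ofReal_add (by positivity) (by positivity), ENNReal.ofReal_mul (by norm_num),
        ENNReal.ofReal_ofNat]
      congr 1
      have e : (1024 : ℝ) * A ^ 2 = 2 * A ^ 2 * 512 := by ring
      rw [e, ENNReal.ofReal_mul (by positivity)]
      norm_num
    rw [e0]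
    apply add_le_add _ le_rfl
    exact mul_le_mul_right ((setLIntegral_le_lintegral _ _).trans b1) _
  -- the third integral
  have T3 : ENNReal.ofReal (∫ y in closedBall x 4, f y * (pot 1 f y + A)) ≤
      ENNReal.ofReal (c3 * t ^ 5 + A * (8 * K)) := by
    refine (ofReal_int_le fun y => mul_nonneg (hf0 y) (hPAn y)).trans ?_
    have h1 : ∀ y ∈ closedBall x 4, ENNReal.ofReal (f y * (pot 1 f y + A)) ≤
        G y * cv G y + ENNReal.ofReal A * G y := by
      intro y hy
      rw [ENNReal.ofReal_mul (hf0 y)]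
      have h2 : G y = ENNReal.ofReal (f y) :=
        hGe y (closedBall_subset_closedBall (by norm_num) hy)
      rw [← h2, mul_comm (ENNReal.ofReal A), ← mul_add]
      exact mul_le_mul_right (hPA y (hsub y hy)) _
    refine (setLIntegral_mono' measurableSet_closedBall h1).trans ?_
    refine (setLIntegral_le_lintegral _ _).trans ?_
    have m : Measurable (fun y => G y * cv G y) := hGm.mul (cv_meas hGm)
    rw [lintegral_add_left m, lintegral_const_mul _ hGm,
      ENNReal.ofReal_add (by positivity) (by positivity), ENNReal.ofReal_mul hA]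
    exact add_le_add b3 (mul_le_mul_right g2 _)
  -- the second integral
  have T2 : ENNReal.ofReal (∫ y in closedBall x 4,
      (pot 1 f y + A) * pot 1 (fun z => f z * (pot 1 f z + A)) y) ≤
      ENNReal.ofReal ((c * t ^ 2 + A * κ) * (c3 * t ^ 5 + A * (8 * K))) := by
    refine (ofReal_int_le fun y => mul_nonneg (hPAn y) (pot_nn _ _ _)).trans ?_
    have h1 : ∀ y ∈ closedBall x 4, ENNReal.ofReal
        ((pot 1 f y + A) * pot 1 (fun z => f z * (pot 1 f z + A)) y) ≤
        (cv G y + ENNReal.ofReal A) * cv (fun z => G z * (cv G z + ENNReal.ofReal A)) y := by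
      intro y hy
      rw [ENNReal.ofReal_mul (hPAn y)]
      apply mul_le_mul' (hPA y (hsub y hy))
      refine (pot_le (fun z => mul_nonneg (hf0 z) (hPAn z)) y).trans (cv_mono fun z hz => ?_)
      have hyz : y + z ∈ closedBall x 5 := by
        rw [mem_closedBall] at hy ⊢
        calc dist (y + z) x ≤ dist (y + z) y + dist y x := dist_triangle _ _ _
          _ ≤ 1 + 4 := by
              apply add_le_add _ hy
              rw [dist_eq_norm, add_sub_cancel_left]
              exact hz
          _ = 5 := by norm_num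
      rw [ENNReal.ofReal_mul (hf0 _)]
      have h2 : G (y + z) = ENNReal.ofReal (f (y + z)) :=
        hGe _ (closedBall_subset_closedBall (by norm_num) hyz)
      rw [← h2]
      exact mul_le_mul_right (hPA _ (closedBall_subset_closedBall (by norm_num) hyz)) _
    refine (setLIntegral_mono' measurableSet_closedBall h1).trans ?_
    refine (setLIntegral_le_lintegral _ _).trans ?_
    refine (b2 (ENNReal.ofReal A)).trans (le_of_eq ?_)
    rw [hκe, ← ENNReal.ofReal_mul hA, ← ENNReal.ofReal_mul hA,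
      ← ENNReal.ofReal_add (by positivity) (by positivity),
      ← ENNReal.ofReal_add (by positivity) (by positivity), ← ENNReal.ofReal_mul (by positivity)]
  rw [ENNReal.ofReal_le_ofReal_iff (by positivity)] at T1 T2 T3
  have p2 := pow_le_one_add t ht0 2 (by norm_num)
  have p5 := pow_le_one_add t ht0 5 (by norm_num)
  have hyt := hy t ht0
  rw [ht8] at hyt
  have q1 : 2 * (c * t ^ 2 * (8 * K)) ≤ 2 * (c * (8 * K)) * (1 + t ^ 7) := by
    have := mul_le_mul_of_nonneg_left p2 (by positivity : 0 ≤ 2 * (c * (8 * K)))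
    linarith
  have q2 : (c * t ^ 2 + A * κ) * (c3 * t ^ 5 + A * (8 * K)) ≤
      c * c3 * (1 + t ^ 7) + c * (A * (8 * K)) * (1 + t ^ 7) + A * κ * c3 * (1 + t ^ 7) +
        A * κ * (A * (8 * K)) := by
    have e : (c * t ^ 2 + A * κ) * (c3 * t ^ 5 + A * (8 * K)) =
        c * c3 * t ^ 7 + c * (A * (8 * K)) * t ^ 2 + A * κ * c3 * t ^ 5 + A * κ * (A * (8 * K)) := by
      ring
    rw [e]
    have r1 := mul_le_mul_of_nonneg_left p2 (by positivity : 0 ≤ c * (A * (8 * K)))
    have r2 := mul_le_mul_of_nonneg_left p5 (by positivity : 0 ≤ A * κ * c3)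
    have r3 : 0 ≤ c * c3 := by positivity
    linarith
  have q3 : c3 * t ^ 5 ≤ c3 * (1 + t ^ 7) := mul_le_mul_of_nonneg_left p5 hc3n
  have q4 : a * t ^ 7 = 2 * (c * (8 * K)) * t ^ 7 + c * c3 * t ^ 7 + c * (A * (8 * K)) * t ^ 7 +
      A * κ * c3 * t ^ 7 + c3 * t ^ 7 := by
    rw [ha]
    ring
  have q5 : a = 2 * (c * (8 * K)) + c * c3 + c * (A * (8 * K)) + A * κ * c3 + c3 := ha
  linarith

theorem set_scale {r : ℝ} (hr : 0 < r) (h : W → ℝ) (y : W) {s : ℝ} (hs : 0 ≤ s) :
    ∫ z in closedBall y s, h (r • z) = (r ^ 3)⁻¹ * ∫ z in closedBall (r • y) (r * s), h z := by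
  rw [Measure.setIntegral_comp_smul_of_pos volume h (closedBall y s) hr]
  rw [smul_closedBall _ _ hs, Real.norm_of_nonneg hr.le]
  simp

theorem pot_const (ρ c : ℝ) (g : W → ℝ) (y : W) : pot ρ (fun z => c * g z) y = |c| * pot ρ g y := by
  unfold pot
  rw [← integral_const_mul]
  congr 1
  funext z
  rw [abs_mul]
  ring

theorem pot_scale {r : ℝ} (hr : 0 < r) (g : W → ℝ) (y : W) :
    pot 1 (fun z => g (r • z)) y = r⁻¹ * pot r g (r • y) := by
  unfold pot
  have h1 : ∀ z : W, |g (r • (y + z))| / ‖z‖ ^ 2 =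
      (fun w : W => |g (r • y + w)| * r ^ 2 / ‖w‖ ^ 2) (r • z) := by
    intro z
    simp only
    rw [norm_smul, Real.norm_of_nonneg hr.le, smul_add]
    rcases eq_or_ne z 0 with rfl | hz
    · simp
    · have : ‖z‖ ≠ 0 := norm_ne_zero_iff.2 hz
      field_simp
  simp only [h1]
  rw [set_scale hr (fun w : W => |g (r • y + w)| * r ^ 2 / ‖w‖ ^ 2) 0 zero_le_one, smul_zero, mul_one]
  have h2 : ∀ w : W, |g (r • y + w)| * r ^ 2 / ‖w‖ ^ 2 = r ^ 2 * (|g (r • y + w)| / ‖w‖ ^ 2) := by
    intro w
    ring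
  simp only [h2]
  rw [integral_const_mul, ← mul_assoc]
  congr 1
  field_simp

theorem near : StmNear := by
  intro K A δ hK hA hδ
  obtain ⟨C, hC, h⟩ := near1 K A δ hK hA hδ
  refine ⟨C, hC, ?_⟩
  intro r f hr hf hf0 hM x
  set f' : W → ℝ := fun y => r ^ 2 * f (r • y) with hf'
  have c1 : Continuous f' := by
    rw [hf']
    exact (hf.comp (continuous_const_smul r)).const_mul _ |>.congr fun y => rfl
  have c2 : ∀ y, 0 ≤ f' y := fun y => mul_nonneg (by positivity) (hf0 _)
  have c3 : Mor K 8 f' := by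
    intro y s hs hs8
    have e : ∀ z : W, |f' z| = r ^ 2 * (fun w => |f w|) (r • z) := by
      intro z
      rw [hf']
      simp only
      rw [abs_mul, abs_of_nonneg (by positivity : 0 ≤ r ^ 2)]
    simp only [e]
    rw [integral_const_mul, set_scale hr (fun w => |f w|) y hs.le]
    have h1 := hM (r • y) (r * s) (by positivity) (by nlinarith)
    have h2 : r ^ 2 * ((r ^ 3)⁻¹ * ∫ z in closedBall (r • y) (r * s), |f z|) =
        r⁻¹ * ∫ z in closedBall (r • y) (r * s), |f z| := by
      field_simp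
    rw [h2]
    calc r⁻¹ * ∫ z in closedBall (r • y) (r * s), |f z| ≤ r⁻¹ * (K * (r * s)) :=
          mul_le_mul_of_nonneg_left h1 (by positivity)
      _ = K * s := by field_simp
  have hx : r • (r⁻¹ • x) = x := by
    rw [smul_smul, mul_inv_cancel₀ hr.ne', one_smul]
  have hp : ∀ y, pot 1 f' y = r * pot r f (r • y) := by
    intro y
    rw [hf', pot_const, pot_scale hr, abs_of_nonneg (by positivity)]
    field_simp
  set Q : W → ℝ := pot r (fun z => f z * (pot r f z + A / r)) with hQ
  have hq : ∀ y, pot 1 (fun z => f' z * (pot 1 f' z + A)) y = r ^ 2 * Q (r • y) := by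
    intro y
    have e : (fun z => f' z * (pot 1 f' z + A)) =
        fun z => r ^ 3 * (fun w => f w * (pot r f w + A / r)) (r • z) := by
      funext z
      rw [hp, hf']
      simp only
      field_simp
    rw [e, pot_const, pot_scale hr (fun w => f w * (pot r f w + A / r)), abs_of_nonneg (by positivity)]
    rw [hQ]
    field_simp
  have hmain := h f' c1 c2 c3 (r⁻¹ • x)
  have i1 : ∫ y in closedBall (r⁻¹ • x) 4, (pot 1 f' y + A) ^ 2 =
      r⁻¹ * ∫ y in closedBall x (4 * r), (pot r f y + A / r) ^ 2 := by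
    have e : ∀ y : W, (pot 1 f' y + A) ^ 2 =
        r ^ 2 * (fun w => (pot r f w + A / r) ^ 2) (r • y) := by
      intro y
      rw [hp]
      simp only
      field_simp
    simp only [e]
    rw [integral_const_mul, set_scale hr (fun w => (pot r f w + A / r) ^ 2) _ (by norm_num), hx,
      mul_comm r 4]
    field_simp
  have i2 : ∫ y in closedBall (r⁻¹ • x) 4,
      (pot 1 f' y + A) * pot 1 (fun z => f' z * (pot 1 f' z + A)) y =
      ∫ y in closedBall x (4 * r), (pot r f y + A / r) * Q y := by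
    have e : ∀ y : W, (pot 1 f' y + A) * pot 1 (fun z => f' z * (pot 1 f' z + A)) y =
        r ^ 3 * (fun w => (pot r f w + A / r) * Q w) (r • y) := by
      intro y
      rw [hq, hp]
      simp only
      field_simp
    simp only [e]
    rw [integral_const_mul, set_scale hr (fun w => (pot r f w + A / r) * Q w) _ (by norm_num), hx,
      mul_comm r 4]
    field_simp
  have i3 : ∫ y in closedBall (r⁻¹ • x) 4, f' y * (pot 1 f' y + A) =
      ∫ y in closedBall x (4 * r), f y * (pot r f y + A / r) := by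
    have e : ∀ y : W, f' y * (pot 1 f' y + A) =
        r ^ 3 * (fun w => f w * (pot r f w + A / r)) (r • y) := by
      intro y
      rw [hp, hf']
      simp only
      field_simp
    simp only [e]
    rw [integral_const_mul, set_scale hr (fun w => f w * (pot r f w + A / r)) _ (by norm_num), hx,
      mul_comm r 4]
    field_simp
  have i4 : ∫ y in closedBall (r⁻¹ • x) 8, f' y ^ 2 = r * ∫ y in closedBall x (8 * r), f y ^ 2 := by
    have e : ∀ y : W, f' y ^ 2 = r ^ 4 * (fun w => f w ^ 2) (r • y) := by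
      intro y
      rw [hf']
      simp only
      ring
    simp only [e]
    rw [integral_const_mul, set_scale hr (fun w => f w ^ 2) _ (by norm_num), hx, mul_comm r 8]
    field_simp
  rw [i1, i2, i3, i4] at hmain
  have e5 : (∫ y in closedBall x (4 * r), (pot r f y + A / r) ^ 2) / r ^ 2
      + (∫ y in closedBall x (4 * r), (pot r f y + A / r) * Q y) / r
      + (∫ y in closedBall x (4 * r), f y * (pot r f y + A / r)) / r =
      (r⁻¹ * (∫ y in closedBall x (4 * r), (pot r f y + A / r) ^ 2)
        + (∫ y in closedBall x (4 * r), (pot r f y + A / r) * Q y)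
        + ∫ y in closedBall x (4 * r), f y * (pot r f y + A / r)) / r := by
    field_simp
  have e6 : δ * (∫ y in closedBall x (8 * r), f y ^ 2) + C / r =
      (δ * (r * ∫ y in closedBall x (8 * r), f y ^ 2) + C) / r := by
    field_simp
  show (∫ y in closedBall x (4 * r), (pot r f y + A / r) ^ 2) / r ^ 2
      + (∫ y in closedBall x (4 * r), (pot r f y + A / r) * Q y) / r
      + (∫ y in closedBall x (4 * r), f y * (pot r f y + A / r)) / r ≤
      δ * (∫ y in closedBall x (8 * r), f y ^ 2) + C / r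
  rw [e5, e6]
  exact div_le_div_of_nonneg_right hmain hr.le

end Pool.Agent.Q81.CC
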