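import Mathlib

/-!
Job CC-NEAR of project CC, part 1: kernels on the cube `closedBall 0 2` of `Fin 3 → ℝ`, in `ℝ≥0∞`.
-/

set_option autoImplicit false

open MeasureTheory Set Metric
open scoped ENNReal

namespace Pool.Agent.Q81.CC

/-- The space with the maximum norm. -/
abbrev W := Fin 3 → ℝ

/-- The kernel `‖z‖ ^ (-α)`, infinite at `0`. -/
noncomputable def kk (α : ℝ) (z : W) : ℝ≥0∞ := (‖z‖ₑ ^ α)⁻¹

theorem kk_meas (α : ℝ) : Measurable (kk α) := by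
  unfold kk
  exact (measurable_enorm.pow_const α).inv

theorem kk_neg (α : ℝ) (z : W) : kk α (-z) = kk α z := by
  unfold kk
  rw [enorm_neg]

theorem kk_add {α β : ℝ} (ha : 0 ≤ α) (hb : 0 ≤ β) (z : W) : kk (α + β) z = kk α z * kk β z := by
  unfold kk
  have h1 : ‖z‖ₑ ^ α ≠ ∞ := ENNReal.rpow_ne_top_of_nonneg ha enorm_ne_top
  have h2 : ‖z‖ₑ ^ β ≠ ∞ := ENNReal.rpow_ne_top_of_nonneg hb enorm_ne_top
  rw [ENNReal.rpow_add_of_nonneg _ _ ha hb, ENNReal.mul_inv (Or.inr h2) (Or.inl h1)]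

theorem kk_anti {α : ℝ} (ha : 0 ≤ α) {z w : W} (h : ‖z‖ ≤ ‖w‖) : kk α w ≤ kk α z := by
  unfold kk
  rw [ENNReal.inv_le_inv]
  apply ENNReal.rpow_le_rpow _ ha
  rw [← ofReal_norm, ← ofReal_norm]
  exact ENNReal.ofReal_le_ofReal h

theorem kk_anti2 {α : ℝ} (ha : 0 ≤ α) {z w : W} (h : ‖z‖ ≤ 2 * ‖w‖) :
    kk α w ≤ 2 ^ α * kk α z := by
  have h1 : kk α w = 2 ^ α * kk α ((2 : ℝ) • w) := by
    unfold kk
    rw [enorm_smul, ENNReal.mul_rpow_of_nonneg _ _ ha]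
    have e : ‖(2 : ℝ)‖ₑ = 2 := by
      rw [← ofReal_norm]
      norm_num
    rw [e]
    have h2 : (2 : ℝ≥0∞) ^ α ≠ 0 := by
      simp [ENNReal.rpow_eq_zero_iff]
    have h3 : (2 : ℝ≥0∞) ^ α ≠ ∞ := ENNReal.rpow_ne_top_of_nonneg ha (by norm_num)
    rw [ENNReal.mul_inv (Or.inl h2) (Or.inl h3), ← mul_assoc, ENNReal.mul_inv_cancel h2 h3, one_mul]
  rw [h1]
  apply mul_le_mul_right
  apply kk_anti ha
  rw [norm_smul]
  simpa using h

/-- the dyadic cubes -/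
def Bd (j : ℕ) : Set W := closedBall 0 (2 * (1 / 2) ^ j)

theorem Bd_meas (j : ℕ) : MeasurableSet (Bd j) := measurableSet_closedBall

theorem kk_dyad {α : ℝ} (ha : 0 ≤ α) (z : W) (hz : ‖z‖ ≤ 2) :
    kk α z ≤ ∑' j : ℕ, (2 : ℝ≥0∞) ^ ((j : ℝ) * α) * (Bd j).indicator 1 z := by
  rcases eq_or_ne z 0 with rfl | h0
  · have h1 : ∀ j : ℕ, (1 : ℝ≥0∞) ≤ (2 : ℝ≥0∞) ^ ((j : ℝ) * α) * (Bd j).indicator 1 (0 : W) := by
      intro j
      have : (0 : W) ∈ Bd j := by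
        unfold Bd
        exact mem_closedBall_self (by positivity)
      rw [indicator_of_mem this, Pi.one_apply, mul_one]
      have h3 := ENNReal.rpow_le_rpow_of_exponent_le (x := (2 : ℝ≥0∞)) (by norm_num)
        (show (0 : ℝ) ≤ (j : ℝ) * α by positivity)
      rwa [ENNReal.rpow_zero] at h3
    have h2 : ∑' j : ℕ, (1 : ℝ≥0∞) ≤ ∑' j : ℕ, (2 : ℝ≥0∞) ^ ((j : ℝ) * α) * (Bd j).indicator 1 (0 : W) :=
      ENNReal.tsum_le_tsum h1
    rw [ENNReal.tsum_const_eq_top_of_ne_zero one_ne_zero] at h2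
    exact le_top.trans h2
  · have hz0 : 0 < ‖z‖ := norm_pos_iff.2 h0
    obtain ⟨j, hj1, hj2⟩ := exists_nat_pow_near_of_lt_one (x := ‖z‖ / 2) (y := 1 / 2)
      (by positivity) (by linarith) (by norm_num) (by norm_num)
    have hm : z ∈ Bd j := by
      unfold Bd
      rw [mem_closedBall_zero_iff]
      linarith
    refine le_trans ?_ (ENNReal.le_tsum j)
    rw [indicator_of_mem hm, Pi.one_apply, mul_one]
    have h1 : ((1 / 2 : ℝ) ^ j) ≤ ‖z‖ := by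
      rw [pow_succ] at hj1
      linarith
    have h2 : (2 : ℝ≥0∞) ^ ((j : ℝ) * α) = ((2 : ℝ≥0∞) ^ j) ^ α := by
      rw [ENNReal.rpow_mul, ENNReal.rpow_natCast]
    have h3 : ((2 : ℝ≥0∞) ^ j)⁻¹ ≤ ‖z‖ₑ := by
      rw [← ofReal_norm]
      refine le_trans (le_of_eq ?_) (ENNReal.ofReal_le_ofReal h1)
      rw [one_div, inv_pow, ENNReal.ofReal_inv_of_pos (by positivity),
        ENNReal.ofReal_pow (by norm_num)]
      norm_num
    unfold kk
    rw [h2, ← inv_inv (((2 : ℝ≥0∞) ^ j) ^ α), ENNReal.inv_le_inv, ← ENNReal.inv_rpow]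
    exact ENNReal.rpow_le_rpow h3 ha

/-- the constants -/
noncomputable def CC (s : ℝ) : ℝ≥0∞ := ∑' j : ℕ, (2 : ℝ≥0∞) ^ (-((j : ℝ) * s))

theorem CC_top {s : ℝ} (hs : 0 < s) : CC s ≠ ∞ := by
  unfold CC
  have h1 : ∀ j : ℕ, (2 : ℝ≥0∞) ^ (-((j : ℝ) * s)) = ((2 : ℝ≥0∞) ^ (-s)) ^ j := by
    intro j
    rw [← ENNReal.rpow_natCast, ← ENNReal.rpow_mul]
    congr 1
    ring
  simp only [h1]
  rw [ENNReal.tsum_geometric]
  have h2 : (2 : ℝ≥0∞) ^ (-s) < 1 := ENNReal.rpow_lt_one_of_one_lt_of_neg (by norm_num) (by linarith)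
  rw [ENNReal.inv_ne_top]
  exact (tsub_pos_of_lt h2).ne'

/-- integrals of the kernels against a weight with a bound of the masses of the dyadic cubes -/
theorem wt_int (g : W → ℝ≥0∞) (M : ℝ≥0∞) {d α : ℝ} (ha : 0 ≤ α)
    (h : ∀ j : ℕ, ∫⁻ z in Bd j, g z ≤ M * (2 : ℝ≥0∞) ^ (-((j : ℝ) * d))) (hg : Measurable g) :
    ∫⁻ z in closedBall (0 : W) 2, g z * kk α z ≤ M * CC (d - α) := by
  have h1 : ∫⁻ z in closedBall (0 : W) 2, g z * kk α z ≤
      ∫⁻ z, ∑' j : ℕ, (2 : ℝ≥0∞) ^ ((j : ℝ) * α) * (Bd j).indicator g z := by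
    calc ∫⁻ z in closedBall (0 : W) 2, g z * kk α z
        ≤ ∫⁻ z in closedBall (0 : W) 2, ∑' j : ℕ, (2 : ℝ≥0∞) ^ ((j : ℝ) * α) * (Bd j).indicator g z := by
          refine setLIntegral_mono' measurableSet_closedBall fun z hz => ?_
          refine (mul_le_mul_right (kk_dyad ha z (by simpa using hz)) (g z)).trans (le_of_eq ?_)
          rw [← ENNReal.tsum_mul_left]
          congr 1
          funext j
          by_cases hj : z ∈ Bd j
          · rw [indicator_of_mem hj, indicator_of_mem hj, Pi.one_apply]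
            ring
          · rw [indicator_of_notMem hj, indicator_of_notMem hj]
            ring
      _ ≤ _ := setLIntegral_le_lintegral _ _
  refine h1.trans ?_
  rw [lintegral_tsum fun j => ((hg.indicator (Bd_meas j)).const_mul _).aemeasurable]
  unfold CC
  rw [← ENNReal.tsum_mul_left]
  refine ENNReal.tsum_le_tsum fun j => ?_
  rw [lintegral_const_mul _ (hg.indicator (Bd_meas j)), lintegral_indicator (Bd_meas j)]
  refine (mul_le_mul_right (h j) _).trans (le_of_eq ?_)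
  have e : (2 : ℝ≥0∞) ^ (-((j : ℝ) * (d - α))) =
      (2 : ℝ≥0∞) ^ ((j : ℝ) * α) * (2 : ℝ≥0∞) ^ (-((j : ℝ) * d)) := by
    rw [← ENNReal.rpow_add _ _ (by norm_num) (by norm_num)]
    congr 1
    ring
  rw [e]
  ring

theorem vol_Bd (j : ℕ) : ∫⁻ _z in Bd j, (1 : ℝ≥0∞) ≤ 64 * (2 : ℝ≥0∞) ^ (-((j : ℝ) * 3)) := by
  rw [setLIntegral_one]
  unfold Bd
  rw [Real.volume_pi_closedBall _ (by positivity)]
  rw [Fintype.card_fin]
  have e1 : (2 * (2 * (1 / 2 : ℝ) ^ j)) ^ 3 = 64 * ((2 : ℝ) ^ (j * 3))⁻¹ := by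
    rw [mul_pow, mul_pow, ← pow_mul, one_div, inv_pow]
    norm_num
    ring
  rw [e1, ENNReal.ofReal_mul (by norm_num), ENNReal.ofReal_inv_of_pos (by positivity),
    ENNReal.ofReal_pow (by norm_num)]
  have e2 : (2 : ℝ≥0∞) ^ (-((j : ℝ) * 3)) = ((2 : ℝ≥0∞) ^ (j * 3))⁻¹ := by
    rw [ENNReal.rpow_neg, ← ENNReal.rpow_natCast]
    push_cast
    rfl
  rw [e2]
  norm_num

/-- the integral of a kernel -/
theorem kk_int {α : ℝ} (ha : 0 ≤ α) : ∫⁻ z in closedBall (0 : W) 2, kk α z ≤ 64 * CC (3 - α) := by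
  have := wt_int (fun _ => 1) 64 ha vol_Bd measurable_const
  simpa using this

end Pool.Agent.Q81.CC
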